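import Pool.Agent.helper19.HF.SpecA

/-!
# Row hf:LRB (MP_bf63dc_nt): the left-right bound
-/

set_option autoImplicit false

namespace Pool.Agent.HF

open Finset

theorem LRB_S (a : ℕ → ℝ) (R : ℕ) (t : ℝ) (ht : 0 ≤ t) (ha : ∀ u, 0 ≤ a u ∧ a u ≤ 1) :
    ∑ u ∈ range R, a u ≤ (#{u ∈ range R | t ≤ a u} : ℝ) + t * R := by
  rw [← Finset.sum_filter_add_sum_filter_not (range R) (fun u => t ≤ a u)]
  refine add_le_add ?_ ?_
  · refine (Finset.sum_le_sum fun u _ => (ha u).2).trans (le_of_eq ?_)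
    simp
  · refine (Finset.sum_le_sum fun u hu => (not_le.1 (Finset.mem_filter.1 hu).2).le).trans ?_
    rw [Finset.sum_const, nsmul_eq_mul, mul_comm]
    refine mul_le_mul_of_nonneg_left ?_ ht
    have h := Finset.card_filter_le (range R) (fun u => ¬ t ≤ a u)
    rw [card_range] at h
    exact_mod_cast h

theorem LRB_ct1 (S S' : Finset ℕ) (δ : ℤ) : (ct S S' δ : ℝ) ≤ ∑ u ∈ S, ∑ v ∈ S', (if (v : ℤ) = u + δ then (1 : ℝ) else 0) := by
  classical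
  unfold ct
  rw [Finset.card_filter]
  push_cast
  refine Finset.sum_le_sum fun u _ => ?_
  by_cases h : ∃ v ∈ S', (v : ℤ) = ((u : ℕ) : ℤ) + δ
  · rw [if_pos h]
    obtain ⟨v, hv, he⟩ := h
    have h1 : (if (v : ℤ) = u + δ then (1 : ℝ) else 0) ≤ ∑ v ∈ S', (if (v : ℤ) = u + δ then (1 : ℝ) else 0) :=
      Finset.single_le_sum (f := fun v : ℕ => if (v : ℤ) = u + δ then (1 : ℝ) else 0) (fun i _ => by split_ifs <;> norm_num) hv
    rw [if_pos he] at h1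
    exact h1
  · rw [if_neg h]
    exact Finset.sum_nonneg fun v _ => by split_ifs <;> norm_num

open Classical in
theorem LRB_ct (S S' : Finset ℕ) (I : Finset ℤ) (b : ℤ → Prop) :
    ∑ δ ∈ I with ¬ b δ, (ct S S' δ : ℝ) ≤ ∑ u ∈ S, ∑ v ∈ S', (if b ((v : ℤ) - u) then (0 : ℝ) else 1) := by
  refine (Finset.sum_le_sum fun δ _ => LRB_ct1 S S' δ).trans ?_
  rw [Finset.sum_comm]
  refine Finset.sum_le_sum fun u _ => ?_
  rw [Finset.sum_comm]
  refine Finset.sum_le_sum fun v _ => ?_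
  have h1 : ∀ δ : ℤ, (if (v : ℤ) = u + δ then (1 : ℝ) else 0) = if δ = (v : ℤ) - u then (1 : ℝ) else 0 := by
    intro δ
    by_cases h : δ = (v : ℤ) - u
    · rw [if_pos h, if_pos (by omega)]
    · rw [if_neg h, if_neg (by omega)]
  rw [Finset.sum_congr rfl fun δ _ => h1 δ, Finset.sum_ite_eq']
  by_cases hb : b ((v : ℤ) - u)
  · rw [if_neg, if_pos hb]
    intro h
    exact (Finset.mem_filter.1 h).2 hb
  · rw [if_neg hb]
    split_ifs <;> norm_num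

open Classical in
theorem LRB_h3 (b : ℤ → Prop) (ε₁ t : ℝ) (R : ℕ) (a a' : ℕ → ℝ) (ht : 0 ≤ t) (ha : ∀ u, 0 ≤ a u ∧ a u ≤ 1) (ha' : ∀ u, 0 ≤ a' u ∧ a' u ≤ 1)
    (h3 : H3 b ε₁ R a a') :
    t ^ 2 * ∑ u ∈ range R with t ≤ a u, ∑ v ∈ range R with t ≤ a' v, (if b ((v : ℤ) - u) then (0 : ℝ) else 1) ≤ ε₁ * (R : ℝ) ^ 2 := by
  refine le_trans ?_ h3
  rw [Finset.mul_sum]
  refine (Finset.sum_le_sum fun u hu => ?_).trans (Finset.sum_le_sum_of_subset_of_nonneg (Finset.filter_subset (fun u => t ≤ a u) (range R)) fun u _ _ => ?_)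
  · rw [Finset.mul_sum]
    refine (Finset.sum_le_sum fun v hv => ?_).trans (Finset.sum_le_sum_of_subset_of_nonneg (Finset.filter_subset (fun v => t ≤ a' v) (range R)) fun v _ _ => ?_)
    · by_cases hb : b ((v : ℤ) - u)
      · simp [hb]
      · rw [if_neg hb, if_neg hb, mul_one, sq]
        exact mul_le_mul (Finset.mem_filter.1 hu).2 (Finset.mem_filter.1 hv).2 ht (ha u).1
    · split_ifs
      · exact le_rfl
      · exact mul_nonneg (ha u).1 (ha' v).1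
  · refine Finset.sum_nonneg fun v _ => ?_
    split_ifs
    · exact le_rfl
    · exact mul_nonneg (ha u).1 (ha' v).1

open Classical in
/-- the number of bad `δ` with `ct δ` not small -/
theorem LRB_A (b : ℤ → Prop) (ε₁ t κ : ℝ) (R : ℕ) (a a' : ℕ → ℝ) (I : Finset ℤ) (hR : 1 ≤ R) (hκ : 0 < κ) (ht : 0 < t) (ha : ∀ u, 0 ≤ a u ∧ a u ≤ 1) (ha' : ∀ u, 0 ≤ a' u ∧ a' u ≤ 1)
    (h3 : H3 b ε₁ R a a') :
    (#{δ ∈ I | ¬ b δ ∧ κ * R / 4 ≤ ct {u ∈ range R | t ≤ a u} {u ∈ range R | t ≤ a' u} δ} : ℝ) ≤ 4 * ε₁ / (κ * t ^ 2) * R := by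
  have hR0 : (0 : ℝ) < R := by exact_mod_cast hR
  have h1 : (#{δ ∈ I | ¬ b δ ∧ κ * R / 4 ≤ ct {u ∈ range R | t ≤ a u} {u ∈ range R | t ≤ a' u} δ} : ℝ) * (κ * R / 4) ≤
      ∑ δ ∈ I with ¬ b δ, (ct {u ∈ range R | t ≤ a u} {u ∈ range R | t ≤ a' u} δ : ℝ) := by
    rw [← nsmul_eq_mul, ← Finset.sum_const]
    refine (Finset.sum_le_sum fun δ hδ => (Finset.mem_filter.1 hδ).2.2).trans (Finset.sum_le_sum_of_subset_of_nonneg ?_ fun δ _ _ => Nat.cast_nonneg _)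
    intro δ hδ
    have := Finset.mem_filter.1 hδ
    exact Finset.mem_filter.2 ⟨this.1, this.2.1⟩
  have h2 := h1.trans (LRB_ct _ _ _ _)
  have h4 := LRB_h3 b ε₁ t R a a' ht.le ha ha' h3
  have h5 : t ^ 2 * ((#{δ ∈ I | ¬ b δ ∧ κ * R / 4 ≤ ct {u ∈ range R | t ≤ a u} {u ∈ range R | t ≤ a' u} δ} : ℝ) * (κ * R / 4)) ≤ ε₁ * (R : ℝ) ^ 2 :=
    (mul_le_mul_of_nonneg_left h2 (sq_nonneg t)).trans h4
  rw [div_mul_eq_mul_div, le_div_iff₀ (by positivity)]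
  have h6 : (t ^ 2 * ((#{δ ∈ I | ¬ b δ ∧ κ * R / 4 ≤ ct {u ∈ range R | t ≤ a u} {u ∈ range R | t ≤ a' u} δ} : ℝ) * κ)) * R ≤ (4 * ε₁ * R) * R := by
    nlinarith
  have h7 := le_of_mul_le_mul_right h6 hR0
  linarith

/-- the number of `δ` where `ct` is not almost periodic -/
theorem LRB_B (κ κ₂ : ℝ) (R : ℕ) (F : ℤ → ℝ) (I : Finset ℤ) (hR : 1 ≤ R) (hκ : 0 < κ) (h : ∑ δ ∈ I, (F δ) ^ 2 ≤ κ₂ * (R : ℝ) ^ 3) :
    (#{δ ∈ I | κ * R / 2 ≤ |F δ|} : ℝ) ≤ 4 * κ₂ / κ ^ 2 * R := by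
  have hR0 : (0 : ℝ) < R := by exact_mod_cast hR
  have h1 : (#{δ ∈ I | κ * R / 2 ≤ |F δ|} : ℝ) * (κ * R / 2) ^ 2 ≤ ∑ δ ∈ I, (F δ) ^ 2 := by
    rw [← nsmul_eq_mul, ← Finset.sum_const]
    refine (Finset.sum_le_sum fun δ hδ => ?_).trans (Finset.sum_le_sum_of_subset_of_nonneg (Finset.filter_subset _ _) fun δ _ _ => sq_nonneg (F δ))
    rw [← sq_abs (F δ)]
    exact pow_le_pow_left₀ (by positivity) (Finset.mem_filter.1 hδ).2 2
  have h2 := h1.trans h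
  rw [div_mul_eq_mul_div, le_div_iff₀ (by positivity)]
  have h6 : ((#{δ ∈ I | κ * R / 2 ≤ |F δ|} : ℝ) * κ ^ 2) * (R : ℝ) ^ 2 ≤ (4 * κ₂ * R) * (R : ℝ) ^ 2 := by
    nlinarith
  exact le_of_mul_le_mul_right h6 (by positivity)

/-- pairs and differences -/
theorem LRB_pairs (Ω Bad : Finset ℤ) (p q : ℕ) (P : ℤ → ℕ → Prop) [∀ w, DecidablePred (P w)] (h : ∀ w ∈ Ω, ∀ d ∈ range p, P w d → w + q * (d : ℕ) ∈ Bad) :
    ∑ w ∈ Ω, (#{d ∈ range p | P w d} : ℝ) ≤ p * #Bad := by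
  have h1 : #(Ω.sigma fun w => {d ∈ range p | P w d}) ≤ #(Bad ×ˢ range p) := by
    refine Finset.card_le_card_of_injOn (fun z => (z.1 + q * (z.2 : ℕ), z.2)) ?_ ?_
    · intro z hz
      have hz1 := Finset.mem_sigma.1 (Finset.mem_coe.1 hz)
      have hz2 := Finset.mem_filter.1 hz1.2
      exact Finset.mem_coe.2 (Finset.mem_product.2 ⟨h _ hz1.1 _ hz2.1 hz2.2, hz2.1⟩)
    · rintro ⟨w, d⟩ _ ⟨w', d'⟩ _ he
      have e1 := (Prod.ext_iff.1 he).2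
      have e2 := (Prod.ext_iff.1 he).1
      simp only at e1 e2
      subst e1
      have : w = w' := by linarith
      rw [this]
  rw [Finset.card_sigma, Finset.card_product, card_range] at h1
  have h2 : ((∑ w ∈ Ω, #{d ∈ range p | P w d} : ℕ) : ℝ) ≤ ((#Bad * p : ℕ) : ℝ) := by exact_mod_cast h1
  push_cast at h2
  linarith

open Classical in
/-- the upper bound -/
theorem LRB_up (b : ℤ → Prop) (p q R : ℕ) :
    ∑ w ∈ Ico (-(R : ℤ)) R, (#{d ∈ range p | b (w + q * (d : ℕ))} : ℝ) ≤ p * ((#{δ ∈ Ico (-(R : ℤ)) R | b δ} : ℝ) + q * p) := by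
  have h0 : ∀ w : ℤ, (#{d ∈ range p | b (w + q * (d : ℕ))} : ℝ) = ∑ d ∈ range p, (if b (w + q * (d : ℕ)) then (1 : ℝ) else 0) := by
    intro w
    rw [Finset.card_filter]
    push_cast
    rfl
  rw [Finset.sum_congr rfl fun w _ => h0 w, Finset.sum_comm]
  have h1 : ∀ d ∈ range p, ∑ w ∈ Ico (-(R : ℤ)) R, (if b (w + q * (d : ℕ)) then (1 : ℝ) else 0) ≤ (#{δ ∈ Ico (-(R : ℤ)) R | b δ} : ℝ) + q * p := by
    intro d hd
    have e0 : ∑ w ∈ Ico (-(R : ℤ)) R, (if b (w + q * (d : ℕ)) then (1 : ℝ) else 0) = (#{w ∈ Ico (-(R : ℤ)) R | b (w + q * (d : ℕ))} : ℝ) := by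
      rw [Finset.card_filter]
      push_cast
      rfl
    rw [e0]
    have e1 : #{w ∈ Ico (-(R : ℤ)) R | b (w + q * (d : ℕ))} ≤ #({δ ∈ Ico (-(R : ℤ)) R | b δ} ∪ Ico (R : ℤ) (R + q * p)) := by
      refine Finset.card_le_card_of_injOn (fun w => w + q * (d : ℕ)) ?_ ?_
      · intro w hw
        have hw1 := Finset.mem_filter.1 (Finset.mem_coe.1 hw)
        have hw2 := Finset.mem_Ico.1 hw1.1
        have hd' := Finset.mem_range.1 hd
        have hq : (0 : ℤ) ≤ q * (d : ℕ) := by positivity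
        have hq2 : (q : ℤ) * (d : ℕ) ≤ q * p := by
          have : (d : ℤ) ≤ p := by exact_mod_cast hd'.le
          exact mul_le_mul_of_nonneg_left this (by positivity)
        apply Finset.mem_coe.2
        apply Finset.mem_union.2
        by_cases hc : w + q * (d : ℕ) < R
        · exact Or.inl (Finset.mem_filter.2 ⟨Finset.mem_Ico.2 ⟨by linarith [hw2.1], hc⟩, hw1.2⟩)
        · exact Or.inr (Finset.mem_Ico.2 ⟨not_lt.1 hc, by linarith [hw2.2]⟩)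
      · intro w _ w' _ he
        simp only at he
        linarith
    have e2 : #(Ico (R : ℤ) (R + q * p)) = q * p := by
      rw [Int.card_Ico]
      have : (R : ℤ) + q * p - R = ((q * p : ℕ) : ℤ) := by push_cast; ring
      rw [this, Int.toNat_natCast]
    have e3 := e1.trans (Finset.card_union_le _ _)
    rw [e2] at e3
    have e4 : (#{w ∈ Ico (-(R : ℤ)) R | b (w + q * (d : ℕ))} : ℝ) ≤ ((#{δ ∈ Ico (-(R : ℤ)) R | b δ} + q * p : ℕ) : ℝ) := by exact_mod_cast e3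
    push_cast at e4
    exact e4
  refine (Finset.sum_le_sum h1).trans (le_of_eq ?_)
  rw [Finset.sum_const, card_range, nsmul_eq_mul]

theorem LRB (h1 : APL_stmt) (h2 : LRA_stmt) : LRB_stmt := by
  classical
  intro e he he1
  obtain ⟨τ, κ, hτ, hκ, p₁, hLRA⟩ := h2 (e / 4) (by positivity) (by linarith)
  obtain ⟨Q, hQ, hAPL⟩ := h1 (e / 4) (τ * e * κ ^ 2 / 128) (by positivity) (by positivity)
  refine ⟨τ * e / 128, τ * e * κ * (e / 16) ^ 2 / 128, Q, by positivity, by positivity, hQ, fun l₀ => ?_⟩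
  obtain ⟨p, hp, hpp⟩ := Nat.exists_infinite_primes (max p₁ l₀)
  refine ⟨p * Q + ⌈64 * ((p : ℝ) * Q) / e⌉₊ + ⌈32 * ((p : ℝ) * Q) / (τ * e)⌉₊ + 1, fun R hR b γ hγ hγ1 hH1 hH2 a a' ha ha' hH3 hs hs' => ?_⟩
  by_contra hcon
  rw [not_le] at hcon
  have hR1 : 1 ≤ R := by omega
  have hR0 : (0 : ℝ) < R := by exact_mod_cast hR1
  have hpQ : p * Q ≤ R := by omega
  have r2 : 64 * ((p : ℝ) * Q) ≤ e * R := by
    have h3 : (⌈64 * ((p : ℝ) * Q) / e⌉₊ : ℝ) ≤ R := by exact_mod_cast (by omega : ⌈64 * ((p : ℝ) * Q) / e⌉₊ ≤ R)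
    have h4 := (Nat.le_ceil _).trans h3
    rw [div_le_iff₀ he] at h4
    linarith
  have r3 : 32 * ((p : ℝ) * Q) ≤ τ * e * R := by
    have h3 : (⌈32 * ((p : ℝ) * Q) / (τ * e)⌉₊ : ℝ) ≤ R := by exact_mod_cast (by omega : ⌈32 * ((p : ℝ) * Q) / (τ * e)⌉₊ ≤ R)
    have h4 := (Nat.le_ceil _).trans h3
    rw [div_le_iff₀ (by positivity)] at h4
    linarith
  have hp0 : (0 : ℝ) < p := by exact_mod_cast hpp.pos
  have hS := LRB_S a R (e / 16) (by positivity) ha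
  have hS' := LRB_S a' R (e / 16) (by positivity) ha'
  obtain ⟨S, hSdef⟩ : ∃ S : Finset ℕ, S = {u ∈ range R | e / 16 ≤ a u} := ⟨_, rfl⟩
  obtain ⟨S', hSdef'⟩ : ∃ S' : Finset ℕ, S' = {u ∈ range R | e / 16 ≤ a' u} := ⟨_, rfl⟩
  rw [← hSdef] at hS
  rw [← hSdef'] at hS'
  have hSR : S ⊆ range R := by rw [hSdef]; exact Finset.filter_subset _ _
  have hSR' : S' ⊆ range R := by rw [hSdef']; exact Finset.filter_subset _ _
  have heR : 0 < e * R := by positivity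
  have hSσ : e / 4 * R ≤ (#S : ℝ) := by linarith
  have hSσ' : e / 4 * R ≤ (#S' : ℝ) := by linarith
  obtain ⟨q, hq1, hqQ, hper⟩ := hAPL p R S S' hR1 hpQ hSR hSR' hSσ
  have hqQ' : (p : ℝ) * q ≤ (p : ℝ) * Q := mul_le_mul_of_nonneg_left (by exact_mod_cast hqQ) hp0.le
  obtain ⟨Ω, hΩ, hΩc, hΩd⟩ := hLRA p hpp ((le_max_left _ _).trans hp) q R S S' (γ + e / 2) hq1 hR1 (by linarith) hSR hSR' hSσ hSσ' (by linarith) (by linarith)
  have hA := LRB_A b (τ * e * κ * (e / 16) ^ 2 / 128) (e / 16) κ R a a' (Icc (-(2 * R : ℤ)) (2 * R)) hR1 hκ (by positivity) ha ha' hH3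
  rw [← hSdef, ← hSdef'] at hA
  have hB := LRB_B κ (τ * e * κ ^ 2 / 128) R (fun d : ℤ => (ct S S' d : ℝ) - ct S S' (d - p * q)) (Icc (-(2 * R : ℤ)) (2 * R)) hR1 hκ hper
  have eA : 4 * (τ * e * κ * (e / 16) ^ 2 / 128) / (κ * (e / 16) ^ 2) = τ * e / 32 := by
    field_simp
    norm_num
  have eB : 4 * (τ * e * κ ^ 2 / 128) / κ ^ 2 = τ * e / 32 := by
    field_simp
    norm_num
  rw [eA] at hA
  rw [eB] at hB
  have hqR : (q : ℤ) * p ≤ R := by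
    have : q * p ≤ R := by
      calc q * p ≤ Q * p := Nat.mul_le_mul_right p hqQ
        _ = p * Q := Nat.mul_comm _ _
        _ ≤ R := hpQ
    exact_mod_cast this
  have hP := LRB_pairs Ω ({δ ∈ Icc (-(2 * R : ℤ)) (2 * R) | ¬ b δ ∧ κ * R / 4 ≤ (ct S S' δ : ℝ)} ∪
      {δ ∈ Icc (-(2 * R : ℤ)) (2 * R) | κ * R / 2 ≤ |(ct S S' δ : ℝ) - ct S S' (δ - p * q)|}) p q
    (fun w d => κ * R ≤ (ct S S' (w + q * (d : ℕ)) : ℝ) + ct S S' (w + q * (d : ℕ) - q * p) ∧ ¬ b (w + q * (d : ℕ))) (by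
      intro w hw d hd hPd
      have hw1 := Finset.mem_Ico.1 (hΩ hw)
      have hd1 := Finset.mem_range.1 hd
      have hq0 : (0 : ℤ) ≤ q * (d : ℕ) := by positivity
      have hqd : (q : ℤ) * (d : ℕ) ≤ q * p := mul_le_mul_of_nonneg_left (by exact_mod_cast hd1.le) (by positivity)
      have hI : w + q * (d : ℕ) ∈ Icc (-(2 * R : ℤ)) (2 * R) := by
        rw [Finset.mem_Icc]
        constructor <;> linarith [hw1.1, hw1.2]
      rw [Finset.mem_union]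
      by_cases hc : κ * R / 4 ≤ (ct S S' (w + q * (d : ℕ)) : ℝ)
      · exact Or.inl (Finset.mem_filter.2 ⟨hI, hPd.2, hc⟩)
      · rw [not_le] at hc
        refine Or.inr (Finset.mem_filter.2 ⟨hI, ?_⟩)
        have h5 := hPd.1
        rw [mul_comm (q : ℤ) (p : ℤ)] at h5
        rw [abs_sub_comm]
        refine le_trans ?_ (le_abs_self _)
        linarith)
  have hcard : (#({δ ∈ Icc (-(2 * R : ℤ)) (2 * R) | ¬ b δ ∧ κ * R / 4 ≤ (ct S S' δ : ℝ)} ∪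
      {δ ∈ Icc (-(2 * R : ℤ)) (2 * R) | κ * R / 2 ≤ |(ct S S' δ : ℝ) - ct S S' (δ - p * q)|}) : ℝ) ≤ τ * e / 32 * R + τ * e / 32 * R := by
    have h5 := Finset.card_union_le {δ ∈ Icc (-(2 * R : ℤ)) (2 * R) | ¬ b δ ∧ κ * R / 4 ≤ (ct S S' δ : ℝ)}
      {δ ∈ Icc (-(2 * R : ℤ)) (2 * R) | κ * R / 2 ≤ |(ct S S' δ : ℝ) - ct S S' (δ - p * q)|}
    have h6 : (#({δ ∈ Icc (-(2 * R : ℤ)) (2 * R) | ¬ b δ ∧ κ * R / 4 ≤ (ct S S' δ : ℝ)} ∪
      {δ ∈ Icc (-(2 * R : ℤ)) (2 * R) | κ * R / 2 ≤ |(ct S S' δ : ℝ) - ct S S' (δ - p * q)|}) : ℝ) ≤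
      (#{δ ∈ Icc (-(2 * R : ℤ)) (2 * R) | ¬ b δ ∧ κ * R / 4 ≤ (ct S S' δ : ℝ)} : ℝ) + #{δ ∈ Icc (-(2 * R : ℤ)) (2 * R) | κ * R / 2 ≤ |(ct S S' δ : ℝ) - ct S S' (δ - p * q)|} := by
      exact_mod_cast h5
    exact h6.trans (add_le_add hA hB)
  have hcount : ∀ w ∈ Ω, (γ + e / 4) * p ≤ (#{d ∈ range p | b (w + q * (d : ℕ))} : ℝ) +
      #{d ∈ range p | κ * R ≤ (ct S S' (w + q * (d : ℕ)) : ℝ) + ct S S' (w + q * (d : ℕ) - q * p) ∧ ¬ b (w + q * (d : ℕ))} := by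
    intro w hw
    have h5 := hΩd w hw
    have h6 : #{d ∈ range p | κ * R ≤ (ct S S' (w + q * (d : ℕ)) : ℝ) + ct S S' (w + q * (d : ℕ) - q * p)} ≤
        #{d ∈ range p | b (w + q * (d : ℕ))} + #{d ∈ range p | κ * R ≤ (ct S S' (w + q * (d : ℕ)) : ℝ) + ct S S' (w + q * (d : ℕ) - q * p) ∧ ¬ b (w + q * (d : ℕ))} := by
      refine (Finset.card_le_card ?_).trans (Finset.card_union_le _ _)
      intro d hd
      have hd1 := Finset.mem_filter.1 hd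
      rw [Finset.mem_union]
      by_cases hb : b (w + q * (d : ℕ))
      · exact Or.inl (Finset.mem_filter.2 ⟨hd1.1, hb⟩)
      · exact Or.inr (Finset.mem_filter.2 ⟨hd1.1, hd1.2, hb⟩)
    have h7 : (#{d ∈ range p | κ * R ≤ (ct S S' (w + q * (d : ℕ)) : ℝ) + ct S S' (w + q * (d : ℕ) - q * p)} : ℝ) ≤
        (#{d ∈ range p | b (w + q * (d : ℕ))} : ℝ) + #{d ∈ range p | κ * R ≤ (ct S S' (w + q * (d : ℕ)) : ℝ) + ct S S' (w + q * (d : ℕ) - q * p) ∧ ¬ b (w + q * (d : ℕ))} := by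
      exact_mod_cast h6
    refine le_trans ?_ (h5.trans h7)
    refine mul_le_mul_of_nonneg_right ?_ hp0.le
    linarith
  have hsum1 : (#Ω : ℝ) * ((γ + e / 4) * p) ≤ ∑ w ∈ Ω, (#{d ∈ range p | b (w + q * (d : ℕ))} : ℝ) + p * (τ * e / 32 * R + τ * e / 32 * R) := by
    have h5 := Finset.sum_le_sum hcount
    rw [Finset.sum_const, nsmul_eq_mul, Finset.sum_add_distrib] at h5
    have h6 := hP.trans (mul_le_mul_of_nonneg_left hcard hp0.le)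
    beta_reduce at h6
    linarith
  have hup := LRB_up b p q R
  have hsub : Ω ⊆ Ico (-(R : ℤ)) R := hΩ
  rw [← Finset.sum_sdiff hsub] at hup
  have hlow : (2 * (R : ℝ) - #Ω) * ((γ - τ * e / 128) * p) ≤ ∑ w ∈ Ico (-(R : ℤ)) R \ Ω, (#{d ∈ range p | b (w + q * (d : ℕ))} : ℝ) := by
    have h5 : (#(Ico (-(R : ℤ)) R \ Ω) : ℝ) = 2 * (R : ℝ) - #Ω := by
      rw [Finset.card_sdiff_of_subset hsub, Int.card_Ico, Nat.cast_sub]
      · have : ((R : ℤ) - -(R : ℤ)).toNat = 2 * R := by omega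
        rw [this]
        push_cast
        ring
      · have h6 := Finset.card_le_card hsub
        rw [Int.card_Ico] at h6
        exact h6
    rw [← h5, ← nsmul_eq_mul, ← Finset.sum_const]
    refine Finset.sum_le_sum fun w hw => ?_
    have hw1 := Finset.mem_Ico.1 (Finset.mem_sdiff.1 hw).1
    have h7 := hH1 q hq1 hqQ p ((le_max_right _ _).trans hp) w hw1.1 (by linarith [hw1.2])
    exact h7
  have hH : (#{δ ∈ Ico (-(R : ℤ)) R | b δ} : ℝ) ≤ (γ + τ * e / 128) * (2 * R) := hH2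
  have hqp : (q : ℝ) * p ≤ τ * e / 32 * R := by linarith
  have hfin : p * ((#Ω : ℝ) * (γ + e / 4) + (2 * (R : ℝ) - #Ω) * (γ - τ * e / 128)) ≤ p * ((γ + τ * e / 128) * (2 * R) + τ * e / 32 * R + (τ * e / 32 * R + τ * e / 32 * R)) := by
    have h8 : (p : ℝ) * ((#{δ ∈ Ico (-(R : ℤ)) R | b δ} : ℝ) + q * p) ≤ p * ((γ + τ * e / 128) * (2 * R) + τ * e / 32 * R) :=
      mul_le_mul_of_nonneg_left (add_le_add hH hqp) hp0.le
    linarith
  have hfin2 := le_of_mul_le_mul_left hfin hp0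
  have h9 : τ * R * (e / 4 + τ * e / 128) ≤ #Ω * (e / 4 + τ * e / 128) := mul_le_mul_of_nonneg_right hΩc (by positivity)
  have h10 : 0 < τ * R * e := by positivity
  have h11 : 0 < τ * R * (τ * e) := by positivity
  nlinarith

end Pool.Agent.HF
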